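import Pool.Agent.X103.BubbleSum

/-!
# MP_105042_an, Q1: pointwise vanishing of the Morrey quantity does not give Hölder regularity

In dimension `n = 3` there is a weak solution `u : B₁ → ℝ⁴` of a system `Δu = Q(x, u, ∇u)` with
`|Q(x, y, z)| ≤ C |z|²` which lies in `W^{1,p}(B₁)` for all `p < 3`, whose Morrey quantities
`M_p(x₀, r)` tend to `0` as `r → 0` at every point `x₀ ∈ B₁`, for every `p ∈ [2, 3)`, but which is
not Hölder continuous in `B_{1/2}`.  It is a superposition of smooth bubbles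
`s² y (s² + |y|²)^{-3/2}` accumulating at the origin, together with one linear component.
-/

set_option autoImplicit false

open MeasureTheory Set Filter Topology
open scoped ENNReal

namespace Pool.Agent.Results.MP_105042_an.VanishingMorreyFails

/-! ### General definitions -/

/-- Euclidean space. -/
abbrev E (n : ℕ) : Type := EuclideanSpace ℝ (Fin n)

/-- Frobenius norm of `z ∈ ℝ^{n × k}`. -/
noncomputable def frob {n k : ℕ} (z : Fin n → Fin k → ℝ) : ℝ := √(∑ i, ∑ α, z i α ^ 2)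

/-- `φ ∈ C_c^∞(B₁)`, with values in `F`. -/
def IsTest {n : ℕ} {F : Type*} [NormedAddCommGroup F] [NormedSpace ℝ F] (φ : E n → F) : Prop :=
  ContDiff ℝ (⊤ : ℕ∞) φ ∧ HasCompactSupport φ ∧ tsupport φ ⊆ Metric.ball 0 1

/-- `Du` is the weak gradient of `u` on `B₁`; `Du x i α` stands for `∂_i u_α (x)`. -/
def IsWeakGradient {n k : ℕ} (u : E n → E k) (Du : E n → Fin n → Fin k → ℝ) : Prop :=
  ∀ φ : E n → ℝ, IsTest φ → ∀ i α,
    ∫ x in Metric.ball 0 1, u x α * fderiv ℝ φ x (EuclideanSpace.single i 1) =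
      -∫ x in Metric.ball 0 1, Du x i α * φ x

/-- `u ∈ W^{1,p}(B₁, ℝ^k)` with weak gradient `Du`. -/
structure MemW {n k : ℕ} (p : ℝ) (u : E n → E k) (Du : E n → Fin n → Fin k → ℝ) : Prop where
  memLp : MemLp u (ENNReal.ofReal p) (volume.restrict (Metric.ball 0 1))
  memLp_grad : ∀ i α, MemLp (fun x => Du x i α) (ENNReal.ofReal p)
    (volume.restrict (Metric.ball 0 1))
  weak : IsWeakGradient u Du

/-- `u` (with weak gradient `Du`) is a weak solution of `Δu = Q(x, u, ∇u)` in `B₁`. -/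
structure IsWeakSolution {n k : ℕ} (Q : E n → E k → (Fin n → Fin k → ℝ) → E k) (u : E n → E k)
    (Du : E n → Fin n → Fin k → ℝ) : Prop where
  memW : MemW 2 u Du
  integrable : IntegrableOn (fun x => Q x (u x) (Du x)) (Metric.ball 0 1)
  eqn : ∀ φ : E n → E k, IsTest φ →
    -∫ x in Metric.ball 0 1, ∑ i, ∑ α, Du x i α * fderiv ℝ φ x (EuclideanSpace.single i 1) α =
      ∫ x in Metric.ball 0 1, ∑ α, Q x (u x) (Du x) α * φ x α

/-- The Morrey quantity `M_p(x₀, r) = r^{p - n} ∫_{B_r(x₀)} |∇u|^p`. -/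
noncomputable def morrey {n k : ℕ} (p : ℝ) (Du : E n → Fin n → Fin k → ℝ) (x₀ : E n) (r : ℝ) : ℝ :=
  1 / r ^ ((n : ℝ) - p) * ∫ x in Metric.ball x₀ r, frob (Du x) ^ p

/-- `u` agrees a.e. on `B_{1/2}` with a Hölder continuous map. -/
def IsHolderHalf {n k : ℕ} (u : E n → E k) : Prop :=
  ∃ (β : ℝ) (C : ℝ) (v : E n → E k), 0 < β ∧ β < 1 ∧
    (∀ x ∈ Metric.ball (0 : E n) (1/2), ∀ y ∈ Metric.ball (0 : E n) (1/2),
      ‖v x - v y‖ ≤ C * ‖x - y‖ ^ β) ∧
    ∀ᵐ x ∂(volume.restrict (Metric.ball (0 : E n) (1/2))), u x = v x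

/-! ### The example -/

open Pool.Agent.X103.Bubble

/-- The solution. -/
noncomputable def sol (x : E 3) : E 4 :=
  WithLp.toLp 2 (Fin.snoc (α := fun _ => ℝ) (fun α : Fin 3 => U α x) (x 0))

/-- Its weak gradient. -/
noncomputable def Dsol (x : E 3) (i : Fin 3) : Fin 4 → ℝ :=
  Fin.snoc (α := fun _ => ℝ) (fun α : Fin 3 => DU i α x) (if i = 0 then 1 else 0)

lemma sol_cast (x : E 3) (α : Fin 3) : sol x α.castSucc = U α x := by
  simp [sol]
lemma sol_last (x : E 3) : sol x (Fin.last 3) = x 0 := by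
  show Fin.snoc (α := fun _ => ℝ) (fun α : Fin 3 => U α x) (x 0) (Fin.last 3) = _
  rw [Fin.snoc_last]
lemma Dsol_cast (x : E 3) (i α : Fin 3) : Dsol x i α.castSucc = DU i α x := by
  simp [Dsol]
lemma Dsol_last (x : E 3) (i : Fin 3) : Dsol x i (Fin.last 3) = if i = 0 then 1 else 0 := by
  rw [Dsol, Fin.snoc_last]

/-- Squared Frobenius norm of the gradient. -/
noncomputable def nn (x : E 3) : ℝ := ∑ i, ∑ α, Dsol x i α ^ 2

lemma nn_eq (x : E 3) : nn x = 1 + ∑ i, ∑ α, DU i α x ^ 2 := by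
  unfold nn
  simp only [Fin.sum_univ_castSucc (n := 3), Dsol_cast, Dsol_last]
  simp only [Fin.sum_univ_three]
  simp
  ring

lemma nn_pos (x : E 3) : 0 < nn x := by
  rw [nn_eq]
  have : 0 ≤ ∑ i, ∑ α, DU i α x ^ 2 :=
    Finset.sum_nonneg fun i _ => Finset.sum_nonneg fun α _ => sq_nonneg _
  linarith

lemma LU_le (x : E 3) (α : Fin 3) : |LU α x| ≤ 15 * nn x := by
  obtain ⟨j0, -, h2, h3⟩ := key x
  rw [nn_eq]
  have := h2 α
  linarith

/-- The coefficient: `F = Δu / |∇u|²`. -/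
noncomputable def FF (x : E 3) : E 4 :=
  WithLp.toLp 2 (Fin.snoc (α := fun _ => ℝ) (fun α : Fin 3 => LU α x / nn x) 0)

lemma FF_cast (x : E 3) (α : Fin 3) : FF x α.castSucc = LU α x / nn x := by
  simp [FF]
lemma FF_last (x : E 3) : FF x (Fin.last 3) = 0 := by
  show Fin.snoc (α := fun _ => ℝ) (fun α : Fin 3 => LU α x / nn x) (0 : ℝ) (Fin.last 3) = _
  rw [Fin.snoc_last]

/-- The nonlinearity `Q(x, y, z) = |z|² F(x)`. -/
noncomputable def QQ (x : E 3) (_ : E 4) (z : Fin 3 → Fin 4 → ℝ) : E 4 :=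
  (∑ i, ∑ α, z i α ^ 2) • FF x

lemma FF_norm (x : E 3) : ‖FF x‖ ≤ 30 := by
  have h : ∀ α : Fin 3, (LU α x / nn x) ^ 2 ≤ 225 := by
    intro α
    have h1 := LU_le x α
    have h2 := nn_pos x
    have h3 : |LU α x / nn x| ≤ 15 := by
      rw [abs_div, abs_of_pos h2, div_le_iff₀ h2]; exact h1
    rw [← sq_abs]
    calc |LU α x / nn x| ^ 2 ≤ 15 ^ 2 := pow_le_pow_left₀ (abs_nonneg _) h3 2
      _ = 225 := by norm_num
  rw [EuclideanSpace.norm_eq]
  apply Real.sqrt_le_iff.2
  refine ⟨by norm_num, ?_⟩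
  simp only [Fin.sum_univ_castSucc (n := 3), FF_cast, FF_last, Real.norm_eq_abs, sq_abs]
  simp only [Fin.sum_univ_three]
  have h0 := h 0
  have h1 := h 1
  have h2 := h 2
  norm_num
  linarith

lemma QQ_le (x : E 3) (y : E 4) (z : Fin 3 → Fin 4 → ℝ) : ‖QQ x y z‖ ≤ 30 * frob z ^ 2 := by
  have h0 : 0 ≤ ∑ i, ∑ α, z i α ^ 2 :=
    Finset.sum_nonneg fun i _ => Finset.sum_nonneg fun α _ => sq_nonneg _
  rw [QQ, norm_smul, Real.norm_of_nonneg h0, frob, Real.sq_sqrt h0, mul_comm]
  exact mul_le_mul_of_nonneg_right (FF_norm x) h0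

lemma QQ_sol_cast (x : E 3) (α : Fin 3) : QQ x (sol x) (Dsol x) α.castSucc = LU α x := by
  have : QQ x (sol x) (Dsol x) α.castSucc = nn x * FF x α.castSucc := rfl
  rw [this, FF_cast, mul_div_cancel₀ _ (nn_pos x).ne']
lemma QQ_sol_last (x : E 3) : QQ x (sol x) (Dsol x) (Fin.last 3) = 0 := by
  have : QQ x (sol x) (Dsol x) (Fin.last 3) = nn x * FF x (Fin.last 3) := rfl
  rw [this, FF_last, mul_zero]

/-! ### Weak gradient -/

section tests

variable {φ : E 3 → ℝ}

lemma test_zero (hφ : IsTest φ) : ∀ x, x ∉ Metric.ball (0 : E 3) 1 → φ x = 0 := fun _ hx =>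
  image_eq_zero_of_notMem_tsupport fun h => hx (hφ.2.2 h)

lemma dtest_zero (hφ : IsTest φ) (i : Fin 3) :
    ∀ x, x ∉ Metric.ball (0 : E 3) 1 → fderiv ℝ φ x (ev i) = 0 := fun x hx => by
  have h1 : x ∉ tsupport φ := fun h => hx (hφ.2.2 h)
  have h2 : x ∉ tsupport (fderiv ℝ φ) := fun h => h1 (tsupport_fderiv_subset ℝ h)
  rw [image_eq_zero_of_notMem_tsupport h2]; rfl

lemma dtest_cont (hφ : IsTest φ) (i : Fin 3) : Continuous fun x => fderiv ℝ φ x (ev i) :=
  (hφ.1.continuous_fderiv (by norm_num)).clm_apply continuous_const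

lemma dtest_supp (hφ : IsTest φ) (i : Fin 3) : HasCompactSupport fun x => fderiv ℝ φ x (ev i) :=
  (hφ.2.1.fderiv (𝕜 := ℝ)).comp_left (g := fun L : E3 →L[ℝ] ℝ => L (ev i)) (by simp)

lemma bdd_of_compact {ψ : E 3 → ℝ} (h1 : Continuous ψ) (h2 : HasCompactSupport ψ) :
    ∃ M, 0 ≤ M ∧ ∀ x, |ψ x| ≤ M := by
  obtain ⟨M, hM⟩ := h2.exists_bound_of_continuous h1
  exact ⟨M, (norm_nonneg _).trans (hM 0), fun x => hM x⟩

lemma int_restrict {F : E 3 → ℝ} (h : ∀ x, x ∉ Metric.ball (0 : E 3) 1 → F x = 0) :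
    ∫ x in Metric.ball (0 : E 3) 1, F x = ∫ x, F x :=
  setIntegral_eq_integral_of_forall_compl_eq_zero h

lemma sum_V (hφ : IsTest φ) (i α : Fin 3) :
    ∫ x, U α x * fderiv ℝ φ x (ev i) = -∫ x, DU i α x * φ x := by
  obtain ⟨M, hM0, hM⟩ := bdd_of_compact (dtest_cont hφ i) (dtest_supp hφ i)
  obtain ⟨M', hM0', hM'⟩ := bdd_of_compact hφ.1.continuous hφ.2.1
  have h1 := hasSum_int (F := fun j => Vj j α) (K := 5) (by norm_num) hM0
    (fun j => continuous_V (sc_pos j) α) (dtest_cont hφ i)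
    (fun j _ hx => V_le_h (sc_pos j) (Dn_le hx) α) hM (dtest_zero hφ i)
  have h2 := hasSum_int (F := fun j => dVj j i α) (K := 20) (by norm_num) hM0'
    (fun j => continuous_dV (sc_pos j) i α) hφ.1.continuous
    (fun j x hx => by
      have h3 := dV_le (a := cen j) (sc_pos j) x i α
      have h4 := g_le_h (sc_pos j) (Dn_le (j := j) hx)
      unfold dVj; linarith) hM' (test_zero hφ)
  have h3 : (fun j => ∫ x, Vj j α x * fderiv ℝ φ x (ev i)) = fun j => -∫ x, dVj j i α x * φ x := by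
    funext j
    exact parts (continuous_V (sc_pos j) α) (continuous_dV (sc_pos j) i α)
      (fun x => V_line (sc_pos j) x i α) hφ.1 hφ.2.1
  rw [h3] at h1
  exact h1.unique h2.neg

lemma sum_L (hφ : IsTest φ) (α : Fin 3) :
    ∑ i, ∫ x, DU i α x * fderiv ℝ φ x (ev i) = -∫ x, LU α x * φ x := by
  obtain ⟨M', hM0', hM'⟩ := bdd_of_compact hφ.1.continuous hφ.2.1
  have h1 : ∀ i : Fin 3, HasSum (fun j => ∫ x, dVj j i α x * fderiv ℝ φ x (ev i))
      (∫ x, DU i α x * fderiv ℝ φ x (ev i)) := by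
    intro i
    obtain ⟨M, hM0, hM⟩ := bdd_of_compact (dtest_cont hφ i) (dtest_supp hφ i)
    exact hasSum_int (F := fun j => dVj j i α) (K := 20) (by norm_num) hM0
      (fun j => continuous_dV (sc_pos j) i α) (dtest_cont hφ i)
      (fun j x hx => by
        have h3 := dV_le (a := cen j) (sc_pos j) x i α
        have h4 := g_le_h (sc_pos j) (Dn_le (j := j) hx)
        unfold dVj; linarith) hM (dtest_zero hφ i)
  have h2 := hasSum_int (F := fun j => lapj j α) (K := 15) (by norm_num) hM0'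
    (fun j => continuous_lapV (sc_pos j) α) hφ.1.continuous
    (fun j x hx => by
      have h3 := lapV_le (a := cen j) (sc_pos j) x α
      have h4 := g_sq_le (a := cen j) (sc_pos j) x
      unfold lapj; linarith) hM' (test_zero hφ)
  have h3 := hasSum_sum (s := Finset.univ) (fun i _ => h1 i)
  have h4 : (fun j => ∑ i, ∫ x, dVj j i α x * fderiv ℝ φ x (ev i)) =
      fun j => -∫ x, lapj j α x * φ x := by
    funext j
    have h5 : ∀ i : Fin 3, ∫ x, dVj j i α x * fderiv ℝ φ x (ev i) =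
        -∫ x, ddV (sc j) (cen j) i α x * φ x := fun i =>
      parts (continuous_dV (sc_pos j) i α) (continuous_ddV (sc_pos j) i α)
        (fun x => dV_line (sc_pos j) x i α) hφ.1 hφ.2.1
    simp only [h5]
    rw [Finset.sum_neg_distrib, ← integral_finsetSum]
    · congr 2
      funext x
      rw [← Finset.sum_mul, lap_eq (sc_pos j)]
      rfl
    · intro i _
      exact ((continuous_ddV (sc_pos j) i α).mul hφ.1.continuous).integrable_of_hasCompactSupport
        hφ.2.1.mul_left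
  rw [h4] at h3
  exact h3.unique h2.neg

end tests

/-! ### The sum of the `p`-th powers -/

/-- `Σ_j g_j^p`. -/
noncomputable def Phi (p : ℝ) (x : E 3) : ℝ≥0∞ := ∑' j, ENNReal.ofReal (gj j x ^ p)

lemma meas_gp (p : ℝ) (j : ℕ) : Measurable fun x : E 3 => ENNReal.ofReal (gj j x ^ p) := by
  have := (continuous_g (a := cen j) (sc_pos j)).measurable
  exact (this.pow_const p).ennreal_ofReal

lemma frob_le (x : E 3) : ∃ j0, frob (Dsol x) ≤ 12 * gj j0 x + 2 := by
  obtain ⟨j0, h1, -, -⟩ := key x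
  refine ⟨j0, ?_⟩
  have hg := gj_pos j0 x
  unfold frob
  apply Real.sqrt_le_iff.2
  refine ⟨by linarith, ?_⟩
  have h2 : ∀ i α, DU i α x ^ 2 ≤ (4 * gj j0 x + 1 / 16) ^ 2 := by
    intro i α
    rw [← sq_abs]
    exact pow_le_pow_left₀ (abs_nonneg _) (h1 i α) 2
  have h3 : ∑ i, ∑ α, Dsol x i α ^ 2 = 1 + ∑ i, ∑ α, DU i α x ^ 2 := nn_eq x
  rw [h3]
  have h4 : ∑ i, ∑ α, DU i α x ^ 2 ≤ ∑ i : Fin 3, ∑ α : Fin 3, (4 * gj j0 x + 1 / 16) ^ 2 :=
    Finset.sum_le_sum fun i _ => Finset.sum_le_sum fun α _ => h2 i α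
  simp only [Finset.sum_const, Finset.card_univ, Fintype.card_fin, nsmul_eq_mul] at h4
  push_cast at h4
  nlinarith

lemma frob_nonneg (z : Fin 3 → Fin 4 → ℝ) : 0 ≤ frob z := Real.sqrt_nonneg _

lemma frob_pow_le {p : ℝ} (hp : 0 < p) (x : E 3) :
    ENNReal.ofReal (frob (Dsol x) ^ p) ≤ ENNReal.ofReal (24 ^ p) * (1 + Phi p x) := by
  obtain ⟨j0, h⟩ := frob_le x
  have hg := gj_pos j0 x
  have h1 : frob (Dsol x) ^ p ≤ 24 ^ p * (1 + gj j0 x ^ p) := by
    have h2 : frob (Dsol x) ^ p ≤ (12 * gj j0 x + 2) ^ p :=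
      Real.rpow_le_rpow (frob_nonneg _) h hp.le
    refine h2.trans ?_
    have hgp : 0 < gj j0 x ^ p := Real.rpow_pos_of_pos hg p
    have h24 : (0:ℝ) < 24 ^ p := by positivity
    rcases le_total (gj j0 x) 1 with h3 | h3
    · have h4 : (12 * gj j0 x + 2) ^ p ≤ 24 ^ p :=
        Real.rpow_le_rpow (by linarith) (by linarith) hp.le
      nlinarith
    · have h4 : (12 * gj j0 x + 2) ^ p ≤ (24 * gj j0 x) ^ p :=
        Real.rpow_le_rpow (by linarith) (by linarith) hp.le
      rw [Real.mul_rpow (by norm_num) hg.le] at h4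
      nlinarith
  calc ENNReal.ofReal (frob (Dsol x) ^ p) ≤ ENNReal.ofReal (24 ^ p * (1 + gj j0 x ^ p)) :=
        ENNReal.ofReal_le_ofReal h1
    _ = ENNReal.ofReal (24 ^ p) * (1 + ENNReal.ofReal (gj j0 x ^ p)) := by
        rw [ENNReal.ofReal_mul (by positivity),
          ENNReal.ofReal_add zero_le_one (Real.rpow_nonneg hg.le _), ENNReal.ofReal_one]
    _ ≤ _ := by
        gcongr
        exact ENNReal.le_tsum j0

/-- The geometric sums `Σ al_j^q`, `q > 0`. -/
lemma summable_al_rpow {q : ℝ} (hq : 0 < q) : Summable fun j => al j ^ q := by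
  have h1 : (fun j => al j ^ q) = fun j => ((1/2 : ℝ) ^ q) ^ (j + 1) := by
    funext j
    unfold al
    rw [← Real.rpow_natCast, ← Real.rpow_natCast, ← Real.rpow_mul (by norm_num),
      ← Real.rpow_mul (by norm_num), mul_comm]
  rw [h1]
  have h2 : (1/2 : ℝ) ^ q < 1 := Real.rpow_lt_one (by norm_num) (by norm_num) hq
  exact (summable_nat_add_iff 1).2 (summable_geometric_of_lt_one (by positivity) h2)

lemma sc_rpow_le {p : ℝ} (hp : p < 3) (j : ℕ) : sc j ^ (3 - p) ≤ al j ^ (2 * (3 - p)) := by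
  have ha := al_pos j
  have h1 : sc j ≤ al j ^ 2 := by unfold sc; nlinarith [sq_nonneg (al j)]
  calc sc j ^ (3 - p) ≤ (al j ^ 2) ^ (3 - p) :=
        Real.rpow_le_rpow (sc_pos j).le h1 (by linarith)
    _ = al j ^ (2 * (3 - p)) := by
        rw [← Real.rpow_natCast, ← Real.rpow_mul ha.le]; push_cast; rfl

lemma lintegral_Phi {p : ℝ} (h1 : 1 < p) (h3 : p < 3) :
    ∫⁻ x, Phi p x < ∞ := by
  unfold Phi
  rw [lintegral_tsum fun j => (meas_gp p j).aemeasurable]
  have h : ∀ j, ∫⁻ x, ENNReal.ofReal (gj j x ^ p) =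
      ENNReal.ofReal (sc j ^ (3 - p) * cI (3 * p / 2)) := fun j =>
    lintegral_g_rpow (sc_pos j) h1
  simp only [h]
  have hs : Summable fun j => sc j ^ (3 - p) * cI (3 * p / 2) := by
    refine Summable.mul_right _ (Summable.of_nonneg_of_le
      (fun j => Real.rpow_nonneg (sc_pos j).le _) (fun j => sc_rpow_le h3 j)
      (summable_al_rpow (by linarith)))
  rw [← ENNReal.ofReal_tsum_of_nonneg (fun j => mul_nonneg (Real.rpow_nonneg (sc_pos j).le _)
    (cI_nonneg _)) hs]
  exact ENNReal.ofReal_lt_top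

lemma meas_frob : Measurable fun x : E 3 => frob (Dsol x) := by
  unfold frob
  refine Measurable.sqrt ?_
  have h : (fun x : E 3 => ∑ i, ∑ α, Dsol x i α ^ 2) = fun x => 1 + ∑ i, ∑ α, DU i α x ^ 2 :=
    funext nn_eq
  rw [h]
  refine measurable_const.add (Finset.measurable_sum _ fun i _ => Finset.measurable_sum _
    fun α _ => (measurable_DU i α).pow_const 2)

lemma lintegral_frob {p : ℝ} (h1 : 1 < p) (h3 : p < 3) :
    ∫⁻ x in Metric.ball (0 : E 3) 1, ENNReal.ofReal (frob (Dsol x) ^ p) < ∞ := by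
  calc ∫⁻ x in Metric.ball (0 : E 3) 1, ENNReal.ofReal (frob (Dsol x) ^ p)
      ≤ ∫⁻ x in Metric.ball (0 : E 3) 1, ENNReal.ofReal (24 ^ p) * (1 + Phi p x) :=
        lintegral_mono fun x => frob_pow_le (by linarith) x
    _ = ENNReal.ofReal (24 ^ p) * (volume (Metric.ball (0 : E 3) 1) +
          ∫⁻ x in Metric.ball (0 : E 3) 1, Phi p x) := by
        rw [lintegral_const_mul' _ _ ENNReal.ofReal_ne_top, lintegral_add_left measurable_const]
        simp
    _ < ∞ := by
        refine ENNReal.mul_lt_top ENNReal.ofReal_lt_top (ENNReal.add_lt_top.2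
          ⟨measure_ball_lt_top, ?_⟩)
        exact lt_of_le_of_lt (setLIntegral_le_lintegral _ _) (lintegral_Phi h1 h3)

lemma abs_le_frob (x : E 3) (i : Fin 3) (α : Fin 4) : |Dsol x i α| ≤ frob (Dsol x) := by
  unfold frob
  apply Real.le_sqrt_of_sq_le
  rw [sq_abs]
  have h1 : Dsol x i α ^ 2 ≤ ∑ α, Dsol x i α ^ 2 :=
    Finset.single_le_sum (f := fun α => Dsol x i α ^ 2) (fun _ _ => sq_nonneg _)
      (Finset.mem_univ α)
  have h2 : ∑ α, Dsol x i α ^ 2 ≤ ∑ i, ∑ α, Dsol x i α ^ 2 :=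
    Finset.single_le_sum (f := fun i => ∑ α, Dsol x i α ^ 2)
      (fun _ _ => Finset.sum_nonneg fun _ _ => sq_nonneg _) (Finset.mem_univ i)
  exact h1.trans h2

lemma meas_Dsol (i : Fin 3) (α : Fin 4) : Measurable fun x => Dsol x i α := by
  refine Fin.lastCases ?_ (fun β => ?_) α
  · simp only [Dsol_last]; exact measurable_const
  · simp only [Dsol_cast]; exact measurable_DU i β

lemma memLp_of_le {f : E 3 → ℝ} (hf : Measurable f) (h : ∀ x, |f x| ≤ frob (Dsol x)) {p : ℝ}
    (h1 : 1 < p) (h3 : p < 3) :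
    MemLp f (ENNReal.ofReal p) (volume.restrict (Metric.ball 0 1)) := by
  refine ⟨hf.aestronglyMeasurable, ?_⟩
  have hp0 : ENNReal.ofReal p ≠ 0 := by simpa using (by linarith : 0 < p)
  rw [eLpNorm_lt_top_iff_lintegral_rpow_enorm_lt_top hp0 ENNReal.ofReal_ne_top,
    ENNReal.toReal_ofReal (by linarith)]
  refine lt_of_le_of_lt (lintegral_mono fun x => ?_) (lintegral_frob h1 h3)
  rw [Real.enorm_eq_ofReal_abs, ENNReal.ofReal_rpow_of_nonneg (abs_nonneg _) (by linarith)]
  exact ENNReal.ofReal_le_ofReal (Real.rpow_le_rpow (abs_nonneg _) (h x) (by linarith))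

lemma meas_sol : Measurable sol := by
  have h : Measurable fun x : E 3 => (Fin.snoc (α := fun _ => ℝ) (fun α : Fin 3 => U α x) (x 0) :
      Fin 4 → ℝ) := by
    rw [measurable_pi_iff]
    intro α
    refine Fin.lastCases ?_ (fun β => ?_) α
    · simp only [Fin.snoc_last]; fun_prop
    · simp only [Fin.snoc_castSucc]; exact measurable_U β
  exact (MeasurableEquiv.toLp 2 (Fin 4 → ℝ)).measurable.comp h

lemma sol_norm_le {x : E 3} (hx : x ∈ Metric.ball (0 : E 3) 1) : ‖sol x‖ ≤ 4 := by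
  rw [EuclideanSpace.norm_eq]
  apply Real.sqrt_le_iff.2
  refine ⟨by norm_num, ?_⟩
  simp only [Fin.sum_univ_castSucc (n := 3), sol_cast, sol_last, Real.norm_eq_abs, sq_abs]
  have h1 : ∀ α, U α x ^ 2 ≤ 4 := fun α => by
    have := U_bound x α
    rw [← sq_abs]
    calc |U α x| ^ 2 ≤ 2 ^ 2 := pow_le_pow_left₀ (abs_nonneg _) this 2
      _ = 4 := by norm_num
  have h2 : x 0 ^ 2 ≤ 1 := by
    have h3 : ‖x‖ < 1 := by simpa using hx
    have h4 := coord_le x 0
    rw [← sq_abs]
    calc |x 0| ^ 2 ≤ 1 ^ 2 := pow_le_pow_left₀ (abs_nonneg _) (by linarith) 2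
      _ = 1 := by norm_num
  simp only [Fin.sum_univ_three]
  have := h1 0
  have := h1 1
  have := h1 2
  linarith

lemma isWeakGradient : IsWeakGradient sol Dsol := by
  intro φ hφ i α
  have hev : (EuclideanSpace.single i 1 : E 3) = ev i := rfl
  rw [hev]
  rw [int_restrict (F := fun x => sol x α * fderiv ℝ φ x (ev i))
    (fun x hx => by rw [dtest_zero hφ i x hx, mul_zero]),
    int_restrict (F := fun x => Dsol x i α * φ x) (fun x hx => by rw [test_zero hφ x hx, mul_zero])]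
  refine Fin.lastCases ?_ (fun β => ?_) α
  · simp only [sol_last, Dsol_last]
    have hd : ∀ x : E3, HasLineDerivAt ℝ (fun x : E3 => x 0) (if i = 0 then 1 else 0) x (ev i) := by
      intro x
      have := coord_line (a := 0) x i 0
      simp only [sub_zero] at this
      refine HasDerivAt.congr_deriv this ?_
      simp [eq_comm]
    exact parts (f := fun x : E3 => x 0) (f' := fun _ => if i = 0 then 1 else 0) (by fun_prop)
      continuous_const hd hφ.1 hφ.2.1
  · simp only [sol_cast, Dsol_cast]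
    exact sum_V hφ i β

instance finBall : IsFiniteMeasure ((volume : Measure (E 3)).restrict (Metric.ball 0 1)) :=
  ⟨by simp [measure_ball_lt_top]⟩

lemma memW {p : ℝ} (h1 : 1 < p) (h3 : p < 3) : MemW p sol Dsol where
  memLp := by
    refine MemLp.of_bound meas_sol.aestronglyMeasurable 4 ?_
    rw [ae_restrict_iff' measurableSet_ball]
    exact Eventually.of_forall fun x hx => sol_norm_le hx
  memLp_grad := fun i α => memLp_of_le (meas_Dsol i α) (fun x => abs_le_frob x i α) h1 h3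
  weak := isWeakGradient

/-! ### The weak equation -/

lemma test_comp {φ : E 3 → E 4} (hφ : IsTest φ) (α : Fin 4) : IsTest fun x => φ x α := by
  refine ⟨?_, ?_, ?_⟩
  · exact (EuclideanSpace.proj (𝕜 := ℝ) α : E 4 →L[ℝ] ℝ).contDiff.comp hφ.1
  · exact hφ.2.1.comp_left (g := fun y : E 4 => y α) (by simp)
  · exact (tsupport_comp_subset (g := fun y : E 4 => y α) (by simp) φ).trans hφ.2.2

lemma fderiv_comp {φ : E 3 → E 4} (hφ : IsTest φ) (α : Fin 4) (x v : E 3) :
    fderiv ℝ (fun x => φ x α) x v = fderiv ℝ φ x v α := by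
  have h1 : HasFDerivAt φ (fderiv ℝ φ x) x :=
    (hφ.1.differentiable (by norm_num) x).hasFDerivAt
  have h2 := (EuclideanSpace.proj (𝕜 := ℝ) α : E 4 →L[ℝ] ℝ).hasFDerivAt.comp x h1
  have h3 : HasFDerivAt (fun x => φ x α)
      ((EuclideanSpace.proj (𝕜 := ℝ) α : E 4 →L[ℝ] ℝ).comp (fderiv ℝ φ x)) x := h2
  rw [h3.fderiv]
  rfl

lemma integrable_mul {f ψ : E 3 → ℝ} (hf : Measurable f) (h : ∀ x, |f x| ≤ frob (Dsol x))
    (hψ : Continuous ψ) (hc : HasCompactSupport ψ) :
    IntegrableOn (fun x => f x * ψ x) (Metric.ball 0 1) := by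
  obtain ⟨M, -, hM⟩ := bdd_of_compact hψ hc
  have h1 : MemLp f (ENNReal.ofReal 2) (volume.restrict (Metric.ball 0 1)) :=
    memLp_of_le hf h (by norm_num) (by norm_num)
  have h2 : Integrable f (volume.restrict (Metric.ball 0 1)) :=
    h1.integrable (by simp)
  exact h2.mul_bdd (c := M) hψ.aestronglyMeasurable (Eventually.of_forall fun x => hM x)

lemma integrable_frobsq : IntegrableOn (fun x : E 3 => frob (Dsol x) ^ 2) (Metric.ball 0 1) := by
  have h1 : MemLp (fun x => frob (Dsol x)) (ENNReal.ofReal 2) (volume.restrict (Metric.ball 0 1)) :=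
    memLp_of_le meas_frob (fun x => by rw [abs_of_nonneg (frob_nonneg _)])
      (by norm_num) (by norm_num)
  have h2 : ENNReal.ofReal 2 = 2 := by simp
  rw [h2] at h1
  exact h1.integrable_sq

lemma meas_FF : Measurable FF := by
  have hnn : Measurable nn := by
    have h : nn = fun x => 1 + ∑ i, ∑ α, DU i α x ^ 2 := funext nn_eq
    rw [h]
    refine measurable_const.add (Finset.measurable_sum _ fun i _ => Finset.measurable_sum _
      fun α _ => (measurable_DU i α).pow_const 2)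
  have h : Measurable fun x : E 3 => (Fin.snoc (α := fun _ => ℝ)
      (fun α : Fin 3 => LU α x / nn x) 0 : Fin 4 → ℝ) := by
    rw [measurable_pi_iff]
    intro α
    refine Fin.lastCases ?_ (fun β => ?_) α
    · simp only [Fin.snoc_last]; fun_prop
    · simp only [Fin.snoc_castSucc]; exact (measurable_LU β).div hnn
  exact (MeasurableEquiv.toLp 2 (Fin 4 → ℝ)).measurable.comp h

lemma integrable_QQ : IntegrableOn (fun x => QQ x (sol x) (Dsol x)) (Metric.ball 0 1) := by
  refine (integrable_frobsq.const_mul 30).mono' ?_ (Eventually.of_forall fun x => QQ_le _ _ _)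
  have hnn : Measurable nn := by
    have h : nn = fun x => 1 + ∑ i, ∑ α, DU i α x ^ 2 := funext nn_eq
    rw [h]
    refine measurable_const.add (Finset.measurable_sum _ fun i _ => Finset.measurable_sum _
      fun α _ => (measurable_DU i α).pow_const 2)
  exact (hnn.smul meas_FF).aestronglyMeasurable

lemma integrable_LU {ψ : E 3 → ℝ} (α : Fin 3)
    (hψ : Continuous ψ) (hc : HasCompactSupport ψ) :
    IntegrableOn (fun x => LU α x * ψ x) (Metric.ball 0 1) := by
  obtain ⟨M, hM0, hM⟩ := bdd_of_compact hψ hc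
  have h2 : IntegrableOn (fun x => LU α x) (Metric.ball 0 1) := by
    refine (integrable_frobsq.const_mul 15).mono' (measurable_LU α).aestronglyMeasurable
      (Eventually.of_forall fun x => ?_)
    have h3 := LU_le x α
    have h4 : frob (Dsol x) ^ 2 = nn x := Real.sq_sqrt (nn_pos x).le
    rw [h4]; exact h3
  exact h2.mul_bdd (c := M) hψ.aestronglyMeasurable (Eventually.of_forall fun x => hM x)

lemma weak_eqn (φ : E 3 → E 4) (hφ : IsTest φ) :
    -∫ x in Metric.ball 0 1, ∑ i, ∑ α, Dsol x i α *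
        fderiv ℝ φ x (EuclideanSpace.single i 1) α =
      ∫ x in Metric.ball 0 1, ∑ α, QQ x (sol x) (Dsol x) α * φ x α := by
  have hev : ∀ i : Fin 3, (EuclideanSpace.single i 1 : E 3) = ev i := fun i => rfl
  simp only [hev]
  have hc := fun α : Fin 4 => test_comp hφ α
  -- left-hand side
  have hL : ∫ x in Metric.ball (0 : E 3) 1, ∑ i, ∑ α, Dsol x i α * fderiv ℝ φ x (ev i) α =
      ∑ i, ∑ α, ∫ x in Metric.ball (0 : E 3) 1, Dsol x i α * fderiv ℝ (fun x => φ x α) x (ev i) := by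
    simp only [← fderiv_comp hφ]
    rw [integral_finsetSum]
    · refine Finset.sum_congr rfl fun i _ => ?_
      rw [integral_finsetSum]
      intro α _
      exact integrable_mul (meas_Dsol i α) (fun x => abs_le_frob x i α) (dtest_cont (hc α) i)
        (dtest_supp (hc α) i)
    · intro i _
      refine integrable_finsetSum _ fun α _ => ?_
      exact integrable_mul (meas_Dsol i α) (fun x => abs_le_frob x i α) (dtest_cont (hc α) i)
        (dtest_supp (hc α) i)
  have hR : ∫ x in Metric.ball (0 : E 3) 1, ∑ α, QQ x (sol x) (Dsol x) α * φ x α =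
      ∑ α : Fin 3, ∫ x in Metric.ball (0 : E 3) 1, LU α x * φ x α.castSucc := by
    simp only [Fin.sum_univ_castSucc (n := 3), QQ_sol_cast, QQ_sol_last, zero_mul, add_zero]
    rw [integral_finsetSum]
    intro α _
    exact integrable_LU α (hc _).1.continuous (hc _).2.1
  rw [hL, hR, Finset.sum_comm]
  have h1 : ∀ (i : Fin 3) (α : Fin 4),
      ∫ x in Metric.ball (0 : E 3) 1, Dsol x i α * fderiv ℝ (fun x => φ x α) x (ev i) =
      ∫ x, Dsol x i α * fderiv ℝ (fun x => φ x α) x (ev i) := fun i α =>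
    int_restrict fun x hx => by rw [dtest_zero (hc α) i x hx, mul_zero]
  have h2 : ∀ α : Fin 3, ∫ x in Metric.ball (0 : E 3) 1, LU α x * φ x α.castSucc =
      ∫ x, LU α x * φ x α.castSucc := fun α =>
    int_restrict fun x hx => by rw [test_zero (hc α.castSucc) x hx, mul_zero]
  simp only [h1, h2]
  rw [Fin.sum_univ_castSucc]
  have h3 : ∑ i : Fin 3, ∫ x, Dsol x i (Fin.last 3) *
      fderiv ℝ (fun x => φ x (Fin.last 3)) x (ev i) = 0 := by
    refine Finset.sum_eq_zero fun i _ => ?_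
    simp only [Dsol_last]
    rw [integral_const_mul]
    have := parts (f := fun _ : E3 => (1:ℝ)) (f' := fun _ => (0:ℝ)) (i := i) continuous_const
      continuous_const (fun x => hasDerivAt_const _ _) (hc (Fin.last 3)).1 (hc (Fin.last 3)).2.1
    simp only [one_mul, zero_mul, integral_zero, neg_zero] at this
    rw [this, mul_zero]
  rw [h3, add_zero]
  simp only [Dsol_cast, sum_L (hc _), Finset.sum_neg_distrib, neg_neg]

lemma isWeakSolution : IsWeakSolution QQ sol Dsol where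
  memW := memW (by norm_num) (by norm_num)
  integrable := integrable_QQ
  eqn := weak_eqn

/-! ### The Morrey quantities -/

lemma morrey_nonneg {p : ℝ} (x₀ : E 3) {r : ℝ} (hr : 0 < r) : 0 ≤ morrey p Dsol x₀ r := by
  unfold morrey
  have : 0 ≤ ∫ x in Metric.ball x₀ r, frob (Dsol x) ^ p :=
    integral_nonneg fun x => Real.rpow_nonneg (frob_nonneg _) _
  positivity

lemma morrey_le {p : ℝ} (x₀ : E 3) {r T : ℝ} (hr : 0 < r) (hT : 0 ≤ T)
    (h : ∫⁻ x in Metric.ball x₀ r, ENNReal.ofReal (frob (Dsol x) ^ p) ≤ ENNReal.ofReal T) :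
    morrey p Dsol x₀ r ≤ 1 / r ^ ((3 : ℝ) - p) * T := by
  unfold morrey
  have h1 : ∫ x in Metric.ball x₀ r, frob (Dsol x) ^ p =
      (∫⁻ x in Metric.ball x₀ r, ENNReal.ofReal (frob (Dsol x) ^ p)).toReal :=
    integral_eq_lintegral_of_nonneg_ae
      (Eventually.of_forall fun x => Real.rpow_nonneg (frob_nonneg _) _)
      (meas_frob.pow_const p).aestronglyMeasurable
  rw [h1]
  have h2 : (∫⁻ x in Metric.ball x₀ r, ENNReal.ofReal (frob (Dsol x) ^ p)).toReal ≤ T := by
    have := ENNReal.toReal_mono ENNReal.ofReal_ne_top h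
    rwa [ENNReal.toReal_ofReal hT] at this
  push_cast
  exact mul_le_mul_of_nonneg_left h2 (by positivity)

/-- The volume of the unit ball. -/
noncomputable def v3 : ℝ := (volume (Metric.ball (0 : E 3) 1)).toReal

lemma vol_ball (x₀ : E 3) {r : ℝ} (hr : 0 < r) :
    volume (Metric.ball x₀ r) = ENNReal.ofReal (v3 * r ^ 3) := by
  rw [Measure.addHaar_ball volume x₀ hr.le, finrank_euclideanSpace_fin, mul_comm, v3,
    ENNReal.ofReal_mul ENNReal.toReal_nonneg, ENNReal.ofReal_toReal measure_ball_lt_top.ne]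

lemma v3_nonneg : 0 ≤ v3 := ENNReal.toReal_nonneg

/-- Away from the origin. -/
lemma morrey_tendsto_of_ne {p : ℝ} (h1 : 1 < p) {x₀ : E 3} (hx : x₀ ≠ 0) :
    Tendsto (fun r => morrey p Dsol x₀ r) (𝓝[>] 0) (𝓝 0) := by
  set c := ‖x₀‖ / 2 with hc
  have hc0 : 0 < c := by have := norm_pos_iff.2 hx; positivity
  set B : ℝ := 12 * (256 / c ^ 2 + 8 / c ^ 3) + 2 with hB
  have hB0 : 0 < B := by positivity
  have hfb : ∀ x : E 3, c ≤ ‖x‖ → frob (Dsol x) ≤ B := by
    intro x hx
    obtain ⟨j0, h⟩ := frob_le x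
    have := gj_bound hc0 hx j0
    rw [hB]; linarith
  have hbound : ∀ r, 0 < r → r < c → morrey p Dsol x₀ r ≤ B ^ p * v3 * r ^ p := by
    intro r hr hrc
    have h2 : ∫⁻ x in Metric.ball x₀ r, ENNReal.ofReal (frob (Dsol x) ^ p) ≤
        ENNReal.ofReal (B ^ p * (v3 * r ^ 3)) := by
      calc ∫⁻ x in Metric.ball x₀ r, ENNReal.ofReal (frob (Dsol x) ^ p)
          ≤ ∫⁻ x in Metric.ball x₀ r, ENNReal.ofReal (B ^ p) := by
            refine setLIntegral_mono measurable_const fun x hx => ?_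
            apply ENNReal.ofReal_le_ofReal
            refine Real.rpow_le_rpow (frob_nonneg _) (hfb x ?_) (by linarith)
            rw [Metric.mem_ball, dist_eq_norm] at hx
            have := norm_sub_norm_le x₀ x
            rw [norm_sub_rev] at this
            linarith
        _ = ENNReal.ofReal (B ^ p * (v3 * r ^ 3)) := by
            rw [setLIntegral_const, vol_ball x₀ hr, ← ENNReal.ofReal_mul (by positivity)]
    have h3 := morrey_le x₀ hr (by have := v3_nonneg; positivity) h2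
    refine h3.trans (le_of_eq ?_)
    rw [Real.rpow_sub hr, Real.rpow_ofNat]
    have : r ^ p ≠ 0 := (Real.rpow_pos_of_pos hr p).ne'
    field_simp
  have hlim : Tendsto (fun r : ℝ => B ^ p * v3 * r ^ p) (𝓝[>] 0) (𝓝 0) := by
    have h4 : Tendsto (fun r : ℝ => r ^ p) (𝓝[>] 0) (𝓝 0) := by
      have := (Real.continuousAt_rpow_const 0 p (Or.inr (by linarith))).tendsto
      rw [Real.zero_rpow (by linarith)] at this
      exact this.mono_left nhdsWithin_le_nhds
    simpa using h4.const_mul (B ^ p * v3)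
  refine tendsto_of_tendsto_of_tendsto_of_le_of_le' tendsto_const_nhds hlim ?_ ?_
  · filter_upwards [self_mem_nhdsWithin] with r hr
    exact morrey_nonneg x₀ hr
  · filter_upwards [Ioo_mem_nhdsGT hc0] with r hr
    exact hbound r hr.1 hr.2

/-- Each bubble near the origin. -/
lemma one_bubble {p : ℝ} (h1 : 1 < p) (h3 : p < 3) {r : ℝ} (hr : 0 < r) (j : ℕ) :
    ∫⁻ x in Metric.ball (0 : E 3) r, ENNReal.ofReal (gj j x ^ p) ≤
      ENNReal.ofReal (al j * (v3 * r ^ 3)) +
        ENNReal.ofReal (al j ^ ((3 - p) / 2) * ((2 * r) ^ (3 * (3 - p) / 2) * cI (3 * p / 2))) := by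
  have ha := al_pos j
  have ha2 := al_le j
  by_cases h : 2 * r ≤ al j
  · refine le_trans ?_ le_self_add
    calc ∫⁻ x in Metric.ball (0 : E 3) r, ENNReal.ofReal (gj j x ^ p)
        ≤ ∫⁻ x in Metric.ball (0 : E 3) r, ENNReal.ofReal (al j) := by
          refine setLIntegral_mono measurable_const fun x hx => ?_
          apply ENNReal.ofReal_le_ofReal
          have h4 : al j / 4 ≤ ‖x - cen j‖ := by
            have h5 := norm_sub_norm_le (cen j) x
            rw [norm_sub_rev, norm_cen] at h5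
            have h6 : ‖x‖ < r := by simpa using hx
            linarith
          have h7 := gj_far h4
          have h8 := gj_pos j x
          calc gj j x ^ p ≤ gj j x ^ (1:ℝ) :=
                Real.rpow_le_rpow_of_exponent_ge h8 (by linarith) h1.le
            _ = gj j x := Real.rpow_one _
            _ ≤ al j := by linarith
      _ = ENNReal.ofReal (al j * (v3 * r ^ 3)) := by
          rw [setLIntegral_const, vol_ball 0 hr, ← ENNReal.ofReal_mul ha.le]
  · push Not at h
    refine le_trans ?_ le_add_self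
    calc ∫⁻ x in Metric.ball (0 : E 3) r, ENNReal.ofReal (gj j x ^ p)
        ≤ ∫⁻ x, ENNReal.ofReal (gj j x ^ p) := setLIntegral_le_lintegral _ _
      _ = ENNReal.ofReal (sc j ^ (3 - p) * cI (3 * p / 2)) := lintegral_g_rpow (sc_pos j) h1
      _ ≤ _ := by
          apply ENNReal.ofReal_le_ofReal
          rw [← mul_assoc]
          refine mul_le_mul_of_nonneg_right ?_ (cI_nonneg _)
          refine (sc_rpow_le h3 j).trans ?_
          rw [show 2 * (3 - p) = (3 - p) / 2 + 3 * (3 - p) / 2 by ring, Real.rpow_add ha]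
          refine mul_le_mul_of_nonneg_left ?_ (by positivity)
          exact Real.rpow_le_rpow ha.le h.le (by linarith)

/-- At the origin. -/
lemma morrey_tendsto_zero {p : ℝ} (h1 : 1 < p) (h3 : p < 3) :
    Tendsto (fun r => morrey p Dsol (0 : E 3) r) (𝓝[>] 0) (𝓝 0) := by
  set S : ℝ := ∑' j, al j ^ ((3 - p) / 2) with hS
  have hS0 : 0 ≤ S := tsum_nonneg fun j => Real.rpow_nonneg (al_pos j).le _
  have hv := v3_nonneg
  have hcI := cI_nonneg (3 * p / 2)
  have hbound : ∀ r, 0 < r → morrey p Dsol (0 : E 3) r ≤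
      24 ^ p * (2 * v3 * r ^ p + S * cI (3 * p / 2) * 2 ^ (3 * (3 - p) / 2) * r ^ ((3 - p) / 2)) := by
    intro r hr
    have hr3 : 0 < r ^ p := Real.rpow_pos_of_pos hr p
    have h2 : ∫⁻ x in Metric.ball (0 : E 3) r, ENNReal.ofReal (frob (Dsol x) ^ p) ≤
        ENNReal.ofReal (24 ^ p * (v3 * r ^ 3 + (v3 * r ^ 3 +
          S * ((2 * r) ^ (3 * (3 - p) / 2) * cI (3 * p / 2))))) := by
      calc ∫⁻ x in Metric.ball (0 : E 3) r, ENNReal.ofReal (frob (Dsol x) ^ p)
          ≤ ∫⁻ x in Metric.ball (0 : E 3) r, ENNReal.ofReal (24 ^ p) * (1 + Phi p x) :=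
            lintegral_mono fun x => frob_pow_le (by linarith) x
        _ = ENNReal.ofReal (24 ^ p) * (volume (Metric.ball (0 : E 3) r) +
              ∑' j, ∫⁻ x in Metric.ball (0 : E 3) r, ENNReal.ofReal (gj j x ^ p)) := by
            rw [lintegral_const_mul' _ _ ENNReal.ofReal_ne_top, lintegral_add_left measurable_const]
            simp only [lintegral_const, one_mul, MeasurableSet.univ, Measure.restrict_apply,
              univ_inter]
            unfold Phi
            rw [lintegral_tsum fun j => (meas_gp p j).aemeasurable]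
        _ ≤ ENNReal.ofReal (24 ^ p) * (ENNReal.ofReal (v3 * r ^ 3) +
              ∑' j, (ENNReal.ofReal (al j * (v3 * r ^ 3)) + ENNReal.ofReal
                (al j ^ ((3 - p) / 2) * ((2 * r) ^ (3 * (3 - p) / 2) * cI (3 * p / 2))))) := by
            gcongr
            · exact (vol_ball 0 hr).le
            · exact one_bubble h1 h3 hr _
        _ = _ := by
            have e1 : ∑' j, ENNReal.ofReal (al j * (v3 * r ^ 3)) =
                ENNReal.ofReal (v3 * r ^ 3) := by
              rw [← ENNReal.ofReal_tsum_of_nonneg (fun j => by have := al_pos j; positivity)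
                (summable_al.mul_right _), tsum_mul_right, hasSum_al.tsum_eq, one_mul]
            have e2 : ∑' j, ENNReal.ofReal
                (al j ^ ((3 - p) / 2) * ((2 * r) ^ (3 * (3 - p) / 2) * cI (3 * p / 2))) =
                ENNReal.ofReal (S * ((2 * r) ^ (3 * (3 - p) / 2) * cI (3 * p / 2))) := by
              rw [← ENNReal.ofReal_tsum_of_nonneg (fun j => by have := al_pos j; positivity)
                ((summable_al_rpow (by linarith)).mul_right _), tsum_mul_right]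
            rw [ENNReal.tsum_add, e1, e2, ← ENNReal.ofReal_add (by positivity) (by positivity),
              ← ENNReal.ofReal_add (by positivity) (by positivity),
              ← ENNReal.ofReal_mul (by positivity)]
    have h4 := morrey_le (0 : E 3) hr (by positivity) h2
    refine h4.trans (le_of_eq ?_)
    have e3 : (2 * r) ^ (3 * (3 - p) / 2) = 2 ^ (3 * (3 - p) / 2) * r ^ (3 * (3 - p) / 2) :=
      Real.mul_rpow (by norm_num) hr.le
    have e4 : r ^ (3 * (3 - p) / 2) = r ^ ((3 : ℝ) - p) * r ^ ((3 - p) / 2) := by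
      rw [← Real.rpow_add hr]; congr 1; ring
    have e5 : r ^ (3 : ℕ) = r ^ ((3 : ℝ) - p) * r ^ p := by
      rw [← Real.rpow_add hr, ← Real.rpow_natCast]; congr 1; push_cast; ring
    have h5 : r ^ ((3 : ℝ) - p) ≠ 0 := (Real.rpow_pos_of_pos hr _).ne'
    rw [e3, e4, e5]
    field_simp
    ring
  have hlim : Tendsto (fun r : ℝ => (24:ℝ) ^ p * (2 * v3 * r ^ p +
      S * cI (3 * p / 2) * 2 ^ (3 * (3 - p) / 2) * r ^ ((3 - p) / 2))) (𝓝[>] 0) (𝓝 0) := by
    have h4 : ∀ q : ℝ, 0 < q → Tendsto (fun r : ℝ => r ^ q) (𝓝[>] 0) (𝓝 0) := by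
      intro q hq
      have := (Real.continuousAt_rpow_const 0 q (Or.inr hq.le)).tendsto
      rw [Real.zero_rpow hq.ne'] at this
      exact this.mono_left nhdsWithin_le_nhds
    have h5 := (((h4 p (by linarith)).const_mul (2 * v3)).add
      ((h4 ((3 - p) / 2) (by linarith)).const_mul
        (S * cI (3 * p / 2) * 2 ^ (3 * (3 - p) / 2)))).const_mul ((24:ℝ) ^ p)
    simpa using h5
  refine tendsto_of_tendsto_of_tendsto_of_le_of_le' tendsto_const_nhds hlim ?_ ?_
  · filter_upwards [self_mem_nhdsWithin] with r hr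
    exact morrey_nonneg 0 hr
  · filter_upwards [self_mem_nhdsWithin] with r hr
    exact hbound r hr

/-! ### Failure of Hölder continuity -/

lemma V_bound_off {c : ℝ} (hc : 0 < c) {x : E 3} (hx : c ≤ ‖x‖) (α : Fin 3) (j : ℕ) :
    |Vj j α x| ≤ (2 / c + 4 / c ^ 2) * al j := by
  have ha := al_pos j
  have hsp := sc_pos j
  have hc2 : 0 < 4 / c ^ 2 := by positivity
  have hc1 : 0 < 2 / c := by positivity
  by_cases h : c / 2 ≤ al j
  · have h1 : |Vj j α x| ≤ 1 := V_le_one (sc_pos j) x α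
    have h2 : 1 ≤ 2 / c * al j := by
      rw [div_mul_eq_mul_div, le_div_iff₀ hc]; linarith
    nlinarith
  · push Not at h
    have h1 : c / 2 ≤ ‖x - cen j‖ := by
      have := norm_sub_norm_le x (cen j)
      rw [norm_cen] at this
      linarith
    have h2 : |Vj j α x| ≤ sc j ^ 2 * (Dn (sc j) (cen j) x)⁻¹ := by
      have := V_le (a := cen j) (sc_pos j) x α
      rwa [W_one] at this
    have h3 : (c / 2) ^ 2 ≤ Dn (sc j) (cen j) x := by
      have h4 := norm_sq_le_Dn (s := sc j) (a := cen j) x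
      have h5 := pow_le_pow_left₀ (by positivity) h1 2
      linarith
    have h4 : (Dn (sc j) (cen j) x)⁻¹ ≤ ((c / 2) ^ 2)⁻¹ := inv_anti₀ (by positivity) h3
    have h5 : ((c / 2) ^ 2)⁻¹ = 4 / c ^ 2 := by field_simp; norm_num
    rw [h5] at h4
    have h6 : sc j ^ 2 ≤ al j := by
      have h7 := sc_le j
      have h8 := sc_le_one j
      nlinarith
    have h7 : sc j ^ 2 * (Dn (sc j) (cen j) x)⁻¹ ≤ al j * (4 / c ^ 2) :=
      mul_le_mul h6 h4 (by have := Dn_pos (cen j) hsp x; positivity) ha.le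
    nlinarith

lemma continuousOn_U (α : Fin 3) : ContinuousOn (U α) {x : E 3 | x ≠ 0} := by
  intro x hx
  have hx0 : 0 < ‖x‖ := norm_pos_iff.2 hx
  have h1 : ContinuousOn (U α) {y : E 3 | ‖x‖ / 2 < ‖y‖} := by
    refine continuousOn_tsum (u := fun j => (2 / (‖x‖ / 2) + 4 / (‖x‖ / 2) ^ 2) * al j)
      (fun j => (continuous_V (sc_pos j) α).continuousOn) (summable_al.mul_left _) ?_
    intro j y hy
    exact V_bound_off (by positivity) (le_of_lt hy) α j
  have h2 : {y : E 3 | ‖x‖ / 2 < ‖y‖} ∈ 𝓝 x :=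
    (isOpen_lt continuous_const continuous_norm).mem_nhds (by show ‖x‖ / 2 < ‖x‖; linarith)
  exact (h1.continuousAt h2).continuousWithinAt

lemma continuousOn_sol : ContinuousOn sol {x : E 3 | x ≠ 0} := by
  have h : ContinuousOn (fun x : E 3 => (Fin.snoc (α := fun _ => ℝ)
      (fun α : Fin 3 => U α x) (x 0) : Fin 4 → ℝ)) {x : E 3 | x ≠ 0} := by
    rw [continuousOn_pi]
    intro α
    refine Fin.lastCases ?_ (fun β => ?_) α
    · simp only [Fin.snoc_last]; fun_prop
    · simp only [Fin.snoc_castSucc]; exact continuousOn_U β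
  exact (PiLp.continuous_toLp 2 (fun _ : Fin 4 => ℝ)).comp_continuousOn h

/-- The evaluation points `cen j + t ev 0`. -/
noncomputable def pt (j : ℕ) (t : ℝ) : E 3 := cen j + t • ev 0

lemma norm_pt_sub (j : ℕ) (t : ℝ) : ‖pt j t - cen j‖ = |t| := by
  rw [pt, add_sub_cancel_left, norm_smul, norm_ev, mul_one, Real.norm_eq_abs]

lemma W_pt (j : ℕ) {t : ℝ} (ht : |t| = sc j) :
    W (sc j) (cen j) (3/2) (pt j t) = (2 * sc j ^ 2) ^ (-(3/2) : ℝ) := by
  unfold W Dn
  rw [norm_pt_sub, ht]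
  congr 1
  ring

lemma Vj_pt (j : ℕ) {t : ℝ} (ht : |t| = sc j) :
    Vj j 0 (pt j t) = t / sc j * 2 ^ (-(3/2) : ℝ) := by
  have hs := sc_pos j
  unfold Vj V
  have e1 : (pt j t - cen j) 0 = t := by
    rw [pt, add_sub_cancel_left]; simp [ev]
  rw [W_pt j ht, e1, Real.mul_rpow (by norm_num) (by positivity)]
  have e2 : (sc j ^ 2) ^ (-(3/2) : ℝ) = (sc j ^ 3)⁻¹ := by
    rw [← Real.rpow_natCast, ← Real.rpow_mul hs.le, ← Real.rpow_natCast, ← Real.rpow_neg hs.le]
    norm_num
  rw [e2]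
  field_simp

lemma two_rpow_ge : (1/4 : ℝ) + 1/128 ≤ 2 ^ (-(3/2) : ℝ) := by
  have h : (2:ℝ) ^ (-(3/2) : ℝ) = (√2)⁻¹ / 2 := by
    rw [show (-(3/2) : ℝ) = -(1/2) - 1 by norm_num, Real.rpow_sub (by norm_num), Real.rpow_one,
      Real.rpow_neg (by norm_num), ← Real.sqrt_eq_rpow]
  rw [h]
  have h1 : √2 ≤ 3/2 := by
    rw [Real.sqrt_le_iff]; norm_num
  have h2 : (3/2 : ℝ)⁻¹ ≤ (√2)⁻¹ := inv_anti₀ (by positivity) h1
  norm_num at h2 ⊢
  linarith

lemma U_pt (j : ℕ) {t : ℝ} (ht : |t| = sc j) :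
    |U 0 (pt j t) - t / sc j * 2 ^ (-(3/2) : ℝ)| ≤ 1 / 256 := by
  have hj : ‖pt j t - cen j‖ < al j / 4 := by
    rw [norm_pt_sub, ht]
    have h1 := sc_le j
    have h2 := al_pos j
    linarith
  have h0 : ∀ i, i ≠ j → al i / 4 ≤ ‖pt j t - cen i‖ := fun i hi => far (Ne.symm hi) hj
  have h1 := tsum_off (by norm_num) (Vj_off h0 0)
  rw [← Vj_pt j ht]
  exact h1

lemma U_gap (j : ℕ) : 1 / 2 ≤ |U 0 (pt j (sc j)) - U 0 (pt j (-sc j))| := by
  have hs := sc_pos j
  have h1 := U_pt j (abs_of_pos hs)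
  have h2 := U_pt j (t := -sc j) (by rw [abs_neg, abs_of_pos hs])
  rw [div_self hs.ne', one_mul] at h1
  rw [neg_div, div_self hs.ne'] at h2
  have h3 := two_rpow_ge
  rw [abs_le] at h1 h2
  refine le_trans ?_ (le_abs_self _)
  linarith

lemma pt_mem (j : ℕ) (hj : 1 ≤ j) {t : ℝ} (ht : |t| = sc j) :
    pt j t ∈ Metric.ball (0 : E 3) (1/2) ∩ {x | x ≠ 0} := by
  have h1 := sc_le j
  have h2 := al_pos j
  have h3 := al_lt (show 0 < j by omega)
  have h4 := al_le 0
  have h5 := norm_pt_sub j t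
  rw [ht] at h5
  have h6 := norm_sub_norm_le (pt j t) (cen j)
  have h7 := norm_sub_norm_le (cen j) (pt j t)
  rw [norm_sub_rev] at h7
  rw [norm_cen] at h6 h7
  constructor
  · rw [mem_ball_zero_iff]
    linarith
  · show pt j t ≠ 0
    rw [← norm_pos_iff]
    linarith

lemma not_holder : ¬ IsHolderHalf sol := by
  rintro ⟨β, C, v, hβ, -, hv, hae⟩
  -- `v` is continuous on the ball
  have hvc : ContinuousOn v (Metric.ball (0 : E 3) (1/2)) := by
    intro x hx
    rw [Metric.continuousWithinAt_iff]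
    intro ε hε
    have h1 : Tendsto (fun r : ℝ => C * r ^ β) (𝓝 0) (𝓝 0) := by
      have h2 := (Real.continuousAt_rpow_const 0 β (Or.inr hβ.le)).tendsto
      rw [Real.zero_rpow hβ.ne'] at h2
      simpa using h2.const_mul C
    obtain ⟨δ, hδ, hd⟩ := Metric.tendsto_nhds_nhds.1 h1 ε hε
    refine ⟨δ, hδ, fun y hy hxy => ?_⟩
    have h3 := hv y hy x hx
    rw [dist_eq_norm] at hxy ⊢
    have h4 : dist (‖y - x‖) 0 < δ := by
      rw [Real.dist_eq, sub_zero, abs_of_nonneg (norm_nonneg _)]; exact hxy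
    have h5 := hd h4
    rw [Real.dist_eq, sub_zero] at h5
    exact lt_of_le_of_lt h3 (lt_of_le_of_lt (le_abs_self _) h5)
  -- equality everywhere on the punctured ball
  set O : Set (E 3) := Metric.ball (0 : E 3) (1/2) ∩ {x | x ≠ 0} with hO
  have hOo : IsOpen O := Metric.isOpen_ball.inter isOpen_ne
  have heq : EqOn sol v O := by
    refine Measure.eqOn_open_of_ae_eq (μ := volume) ?_ hOo
      (continuousOn_sol.mono inter_subset_right) (hvc.mono inter_subset_left)
    exact ae_restrict_of_ae_restrict_of_subset inter_subset_left hae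
  have hgap : ∀ j : ℕ, 1 ≤ j → 1 / 2 ≤ C * (2 * sc j) ^ β := by
    intro j hj
    have hs := sc_pos j
    have h1 := pt_mem j hj (abs_of_pos hs)
    have h2 := pt_mem j hj (t := -sc j) (by rw [abs_neg, abs_of_pos hs])
    have h3 := hv _ h1.1 _ h2.1
    rw [← heq h1, ← heq h2] at h3
    have h4 : ‖pt j (sc j) - pt j (-sc j)‖ = 2 * sc j := by
      have : pt j (sc j) - pt j (-sc j) = (2 * sc j) • ev 0 := by
        unfold pt
        rw [add_sub_add_left_eq_sub, ← sub_smul]
        congr 1; ring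
      rw [this, norm_smul, norm_ev, mul_one, Real.norm_of_nonneg (by positivity)]
    rw [h4] at h3
    refine le_trans ?_ h3
    have h5 : |(sol (pt j (sc j)) - sol (pt j (-sc j))) (Fin.castSucc 0)| ≤
        ‖sol (pt j (sc j)) - sol (pt j (-sc j))‖ := by
      have := PiLp.norm_apply_le (sol (pt j (sc j)) - sol (pt j (-sc j))) (Fin.castSucc 0)
      simpa using this
    refine le_trans ?_ h5
    rw [PiLp.sub_apply, sol_cast, sol_cast]
    exact U_gap j
  have hlim : Tendsto (fun j : ℕ => C * (2 * sc j) ^ β) atTop (𝓝 0) := by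
    have h1 : Tendsto (fun j => 2 * sc j) atTop (𝓝 0) := by
      have h2 : Tendsto al atTop (𝓝 0) := summable_al.tendsto_atTop_zero
      have h3 : Tendsto (fun j => 2 * (al j / 64)) atTop (𝓝 0) := by
        simpa using (h2.div_const 64).const_mul 2
      exact tendsto_of_tendsto_of_tendsto_of_le_of_le tendsto_const_nhds h3
        (fun j => by have := sc_pos j; positivity) (fun j => by have := sc_le j; dsimp only; linarith)
    have h2 := (Real.continuousAt_rpow_const 0 β (Or.inr hβ.le)).tendsto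
    rw [Real.zero_rpow hβ.ne'] at h2
    simpa using (h2.comp h1).const_mul C
  have h1 := ge_of_tendsto hlim (eventually_atTop.2 ⟨1, hgap⟩)
  norm_num at h1

/-- **Vanishing of the Morrey quantities at every point does not imply Hölder regularity.** -/
theorem result :
    ∃ (Q : E 3 → E 4 → (Fin 3 → Fin 4 → ℝ) → E 4) (C : ℝ) (u : E 3 → E 4)
      (Du : E 3 → Fin 3 → Fin 4 → ℝ), 0 < C ∧
      (∀ x y z, ‖Q x y z‖ ≤ C * frob z ^ 2) ∧
      IsWeakSolution Q u Du ∧
      (∀ p : ℝ, 2 ≤ p → p < 3 → MemW p u Du ∧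
        ∀ x₀ ∈ Metric.ball (0 : E 3) 1, Tendsto (fun r => morrey p Du x₀ r) (𝓝[>] 0) (𝓝 0)) ∧
      ¬ IsHolderHalf u := by
  refine ⟨QQ, 30, sol, Dsol, by norm_num, QQ_le, isWeakSolution, ?_, not_holder⟩
  intro p h2 h3
  refine ⟨memW (by linarith) h3, fun x₀ _ => ?_⟩
  by_cases hx : x₀ = 0
  · rw [hx]; exact morrey_tendsto_zero (by linarith) h3
  · exact morrey_tendsto_of_ne (by linarith) hx

end Pool.Agent.Results.MP_105042_an.VanishingMorreyFails
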